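import Pool.Agent.K1H12.SW.Stm

set_option autoImplicit false

/-!
# Project HE, piece PERM: permutation modules with coefficients
-/

namespace Pool.Agent.K1H10.HE

open Pool.Agent.K1H12.SW

section

variable {G : Type} [Group G] {V : Type} [AddCommGroup V]

theorem permR_apply (X : Type) [MulAction G X] (σ : Representation ℤ G V) (g : G) (f : X → V)
    (x : X) : permR X σ g f x = σ g (f (g⁻¹ • x)) := rfl

/-- equivariant bijections give isomorphic representations -/
theorem iso_of_equiv {X Y : Type} [MulAction G X] [MulAction G Y] (σ : Representation ℤ G V)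
    (e : X ≃ Y) (he : ∀ (g : G) (x : X), e (g • x) = g • e x) :
    IsoR (permR X σ) (permR Y σ) := by
  refine ⟨LinearEquiv.funCongrLeft ℤ V e.symm, ?_⟩
  intro g f
  funext y
  change (permR X σ g f) (e.symm y) = permR Y σ g (fun z => f (e.symm z)) y
  rw [permR_apply, permR_apply]
  congr 2
  rw [Equiv.eq_symm_apply, he, Equiv.apply_symm_apply]

/-- the complement of an orbit -/
def co (X : Type) [MulAction G X] (x : X) : SubMulAction G X where
  carrier := {y | y ∉ MulAction.orbit G x}
  smul_mem' g y hy := by
    intro h
    apply hy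
    rw [← MulAction.orbit_eq_iff] at h ⊢
    rw [← h, MulAction.orbit_smul]

theorem mem_co {X : Type} [MulAction G X] {x y : X} :
    y ∈ co (G := G) X x ↔ y ∉ MulAction.orbit G x := Iff.rfl

open Classical in
/-- extension by zero -/
noncomputable def ext0 (X : Type) [MulAction G X] (x : X) :
    (co (G := G) X x → V) →ₗ[ℤ] (X → V) where
  toFun φ y := if h : y ∈ co (G := G) X x then φ ⟨y, h⟩ else 0
  map_add' φ ψ := by
    funext y
    by_cases h : y ∈ co (G := G) X x
    · simp [h]
    · simp [h]
  map_smul' n φ := by
    funext y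
    by_cases h : y ∈ co (G := G) X x
    · simp [h]
    · simp [h]

theorem ext0_pos {X : Type} [MulAction G X] {x : X} (φ : co (G := G) X x → V) {y : X}
    (h : y ∈ co (G := G) X x) : ext0 (V := V) X x φ y = φ ⟨y, h⟩ := by
  classical
  exact dif_pos h

theorem ext0_neg {X : Type} [MulAction G X] {x : X} (φ : co (G := G) X x → V) {y : X}
    (h : y ∉ co (G := G) X x) : ext0 (V := V) X x φ y = 0 := by
  classical
  exact dif_neg h

/-- restriction to the orbit -/
def res (X : Type) [MulAction G X] (x : X) : (X → V) →ₗ[ℤ] (MulAction.orbit G x → V) where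
  toFun φ y := φ y
  map_add' _ _ := rfl
  map_smul' _ _ := rfl

theorem ses_orbit (X : Type) [MulAction G X] (x : X) (σ : Representation ℤ G V) :
    Ses (permR (co (G := G) X x) σ) (permR X σ) (permR (MulAction.orbit G x) σ) := by
  classical
  refine ⟨ext0 (V := V) X x, res (V := V) X x, ?_, ?_, ?_, ?_, ?_⟩
  · intro g φ
    funext y
    rw [permR_apply]
    by_cases h : y ∈ co (G := G) X x
    · have h' : g⁻¹ • y ∈ co (G := G) X x := SubMulAction.smul_mem _ _ h
      rw [ext0_pos _ h, ext0_pos _ h', permR_apply]
      rfl
    · have h' : g⁻¹ • y ∉ co (G := G) X x := by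
        intro h'
        apply h
        have := SubMulAction.smul_mem (co (G := G) X x) g h'
        rwa [smul_inv_smul] at this
      rw [ext0_neg _ h, ext0_neg _ h', map_zero]
  · intro g φ
    funext y
    rw [permR_apply]
    rfl
  · intro φ ψ h
    funext y
    have := congrFun h y
    rwa [ext0_pos _ y.2, ext0_pos _ y.2] at this
  · intro ψ
    refine ⟨fun y => if h : y ∈ MulAction.orbit G x then ψ ⟨y, h⟩ else 0, ?_⟩
    funext y
    show (if h : (y : X) ∈ MulAction.orbit G x then ψ ⟨y, h⟩ else 0) = _
    rw [dif_pos y.2]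
  · intro φ
    constructor
    · intro h
      refine ⟨fun y => φ y, ?_⟩
      funext y
      by_cases hy : y ∈ co (G := G) X x
      · rw [ext0_pos _ hy]
      · rw [ext0_neg _ hy]
        rw [mem_co, not_not] at hy
        exact (congrFun h ⟨y, hy⟩).symm
    · rintro ⟨ψ, rfl⟩
      funext y
      show ext0 (V := V) X x ψ y = 0
      exact ext0_neg _ (fun h => h y.2)

end

/-- the transitive case -/
theorem orbit_case (hR : AllRep) (hF : AllFin) (hI : S_IND) (G : Type) [Group G] (X : Type)
    [Finite X] [MulAction G X] (x : X) (hx : FFr (triv (MulAction.stabilizer G x)))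
    (V : Type) [AddCommGroup V] (σ : Representation ℤ G V) (hσ : Small σ) :
    FFr (permR (MulAction.orbit G x) σ) := by
  have hfin : Finite (G ⧸ MulAction.stabilizer G x) :=
    Finite.of_equiv _ (MulAction.orbitEquivQuotientStabilizer G x)
  have hfi : (MulAction.stabilizer G x).FiniteIndex := Subgroup.finiteIndex_of_finite_quotient
  have h1 : FFr (σ.comp (MulAction.stabilizer G x).subtype :
      Representation ℤ (MulAction.stabilizer G x) V) := by
    refine (hF (MulAction.stabilizer G x)).F hx V _ ⟨hσ.1, hσ.2.subset ?_⟩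
    rintro _ ⟨k, rfl⟩
    exact ⟨k, rfl⟩
  have h2 := hI hR G (MulAction.stabilizer G x) hfi V σ h1
  refine (hR G).isoF _ _ _ _ (iso_of_equiv σ (MulAction.orbitEquivQuotientStabilizer G x).symm ?_) h2
  intro g y
  induction y using QuotientGroup.induction_on with
  | H a =>
    apply Subtype.ext
    rw [MulAction.Quotient.smul_coe, MulAction.orbitEquivQuotientStabilizer_symm_apply,
      MulAction.orbit.coe_smul, MulAction.orbitEquivQuotientStabilizer_symm_apply, smul_eq_mul,
      mul_smul]

theorem perm_aux (hR : AllRep) (hF : AllFin) (hI : S_IND) (G : Type) [Group G]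
    (V : Type) [AddCommGroup V] (σ : Representation ℤ G V) (hσ : Small σ) :
    ∀ (n : ℕ) (X : Type) [Finite X] [MulAction G X], Nat.card X = n →
      (∀ x : X, FFr (triv (MulAction.stabilizer G x))) → FFr (permR X σ) := by
  intro n
  induction n using Nat.strong_induction_on with
  | _ n ih =>
    intro X _ _ hn hX
    rcases isEmpty_or_nonempty X with he | ⟨⟨x⟩⟩
    · exact (hR G).zeroF _ _ inferInstance
    · refine ((hR G).ttF _ _ _ _ _ _ (ses_orbit X x σ)).1 ?_ ?_
      · have hlt : Nat.card (co (G := G) X x) < n := by
          rw [← hn]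
          refine Finite.card_subtype_lt (p := fun y => y ∈ co (G := G) X x) (x := x) ?_
          rw [mem_co, not_not]
          exact MulAction.mem_orbit_self x
        refine ih _ hlt (co (G := G) X x) rfl ?_
        intro y
        have h1 := hX (y : X)
        rw [← SubMulAction.stabilizer_of_subMul] at h1
        exact h1
      · exact orbit_case hR hF hI G X x (hX x) V σ hσ

theorem t_PERM : S_PERM := by
  intro hR hF hI G _ X _ _ hX V _ σ hσ
  exact perm_aux hR hF hI G V σ hσ _ X rfl hX

end Pool.Agent.K1H10.HE
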